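import Mathlib

set_option autoImplicit false

/-!
# Upward planar grid drawings of bipartite DAGs: definitions
-/

namespace Pool.Agent.T6.H90.Upward

/-- A bipartite DAG on the vertex set `V` (`E u v` means that there is an edge directed from `u` to
`v`): for some partition of the vertices into `A` and its complement, every edge is directed from a
vertex of `A` to a vertex of the complement. -/
def IsBipartiteDAG {V : Type} (E : V → V → Prop) : Prop :=
  ∃ A : Set V, ∀ u v, E u v → u ∈ A ∧ v ∉ A

/-- The grid point `p` as a point of the plane. -/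
def toPlane (p : ℤ × ℤ) : ℝ × ℝ := ((p.1 : ℝ), (p.2 : ℝ))

/-- The polygonal chain through the grid points of a list: the union of the segments joining
consecutive points. -/
def chain : List (ℤ × ℤ) → Set (ℝ × ℝ)
  | [] => ∅
  | [a] => {toPlane a}
  | a :: b :: l => segment ℝ (toPlane a) (toPlane b) ∪ chain (b :: l)

/-- The poly-line from `p` to `q` with the given list of bends. -/
def curve (p q : ℤ × ℤ) (bends : List (ℤ × ℤ)) : Set (ℝ × ℝ) := chain (p :: (bends ++ [q]))

/-- An upward planar poly-line grid drawing of the digraph `E`: the vertices are placed at distinct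
grid points, the edge `(u, v)` is drawn as a poly-line from the point of `u` to the point of `v`
with bends at grid points, along which the `y`-coordinate is strictly increasing; the point of a
vertex lies on an edge only if the vertex is an end of the edge, and a common point of two different
edges is the point of a common end. -/
structure Drawing {V : Type} (E : V → V → Prop) where
  /-- the points of the vertices -/
  pos : V → ℤ × ℤ
  /-- the bends of the edges -/
  bends : V → V → List (ℤ × ℤ)
  pos_injective : Function.Injective pos
  upward : ∀ u v, E u v →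
    List.IsChain (fun a b : ℤ × ℤ => a.2 < b.2) (pos u :: (bends u v ++ [pos v]))
  vertex_not_on_edge : ∀ u v w, E u v → toPlane (pos w) ∈ curve (pos u) (pos v) (bends u v) →
    w = u ∨ w = v
  planar : ∀ u v x y, E u v → E x y → (u, v) ≠ (x, y) →
    ∀ z ∈ curve (pos u) (pos v) (bends u v), z ∈ curve (pos x) (pos y) (bends x y) →
      ∃ w, (w = u ∨ w = v) ∧ (w = x ∨ w = y) ∧ z = toPlane (pos w)

/-- The drawing is straight-line: there are no bends. -/
def Drawing.Straight {V : Type} {E : V → V → Prop} (D : Drawing E) : Prop :=
  ∀ u v, E u v → D.bends u v = []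

/-- The drawing is contained in an axis-parallel rectangle of width `W` and height `H`. -/
def Drawing.FitsIn {V : Type} {E : V → V → Prop} (D : Drawing E) (W H : ℝ) : Prop :=
  ∃ a c : ℝ,
    (∀ v, (toPlane (D.pos v)).1 ∈ Set.Icc a (a + W) ∧ (toPlane (D.pos v)).2 ∈ Set.Icc c (c + H)) ∧
    ∀ u v, E u v → ∀ z ∈ curve (D.pos u) (D.pos v) (D.bends u v),
      z.1 ∈ Set.Icc a (a + W) ∧ z.2 ∈ Set.Icc c (c + H)

/-- The minimum area `W * H` of an upward planar poly-line grid drawing of `E`. -/
noncomputable def minPolyArea {V : Type} (E : V → V → Prop) : ℝ :=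
  sInf {A : ℝ | ∃ (D : Drawing E) (W H : ℝ), 0 ≤ W ∧ 0 ≤ H ∧ D.FitsIn W H ∧ A = W * H}

/-- The minimum area `W * H` of an upward planar straight-line grid drawing of `E`. -/
noncomputable def minStraightArea {V : Type} (E : V → V → Prop) : ℝ :=
  sInf {A : ℝ | ∃ (D : Drawing E) (W H : ℝ), D.Straight ∧ 0 ≤ W ∧ 0 ≤ H ∧ D.FitsIn W H ∧
    A = W * H}

/-- `A_p(n)`: the maximum over all upward planar bipartite DAGs with `n` vertices of the minimum
area of an upward planar poly-line grid drawing. -/
noncomputable def polyArea (n : ℕ) : ℝ :=
  sSup {A : ℝ | ∃ E : Fin n → Fin n → Prop, IsBipartiteDAG E ∧ Nonempty (Drawing E) ∧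
    A = minPolyArea E}

/-- `A_s(n)`: the maximum over all upward planar bipartite DAGs with `n` vertices of the minimum
area of an upward planar straight-line grid drawing. -/
noncomputable def straightArea (n : ℕ) : ℝ :=
  sSup {A : ℝ | ∃ E : Fin n → Fin n → Prop, IsBipartiteDAG E ∧
    (∃ D : Drawing E, D.Straight) ∧ A = minStraightArea E}

end Pool.Agent.T6.H90.Upward
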