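import Pool.Agent.T6.H90.Upward.Lower

set_option autoImplicit false

/-!
# The area of a drawing of nested cycles
-/

namespace Pool.Agent.T6.H90.Upward

open Set

section

variable {V : Type} {E : V → V → Prop} (D : Drawing E) {k : ℕ} {g : ℕ → ℕ → V}

/-- a drawing containing `k` nested cycles has extent at least `k / 2 - 1` in the direction of `f` -/
theorem extent [Finite V] (hg : Nest E k g) (f : (ℝ × ℝ) →ₗ[ℝ] ℝ) (F : ℤ × ℤ → ℤ)
    (hF : ∀ p, f (toPlane p) = F p) (e : ℝ × ℝ) (he : f e = 1) (a W : ℝ) (hW : 0 ≤ W)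
    (hbox : ∀ z ∈ D.part Set.univ, f z ∈ Set.Icc a (a + W)) : (k : ℝ) ≤ 2 * (W + 1) := by
  classical
  have hne : ∀ j : ℕ, ((fun p : ℕ × ℕ => g p.1 p.2) '' cycSet j).Nonempty := fun j =>
    ⟨_, (j, 0), ⟨rfl, by norm_num⟩, rfl⟩
  choose m hm1 hm2 using fun j : ℕ => D.exists_min f F hF (hne j)
  have hsub : ∀ j, D.lab g (cycSet j) ⊆ D.part Set.univ := fun j => D.part_mono (subset_univ _)
  -- no three cycles have the same minimum
  have h3 : ∀ i j l : ℕ, i < j → j < l → l < k → m i = m j → m j = m l → False := by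
    intro i j l hij hjl hlk h1 h2
    refine no_three D hg f e he (m j : ℝ) hij hjl hlk ?_ ?_ (hm1 j)
    · obtain ⟨z, hz, hfz⟩ := hm2 i
      exact ⟨z, hz, by rw [hfz, h1]⟩
    · obtain ⟨z, hz, hfz⟩ := hm2 l
      exact ⟨z, hz, by rw [hfz, h2]⟩
  have hmaps : ∀ j ∈ Finset.range k, m j ∈ Finset.Icc ⌈a⌉ ⌊a + W⌋ := by
    intro j _
    obtain ⟨z, hz, hfz⟩ := hm2 j
    have := hbox z (hsub j hz)
    rw [hfz] at this
    rw [Finset.mem_Icc]
    exact ⟨Int.ceil_le.2 this.1, Int.le_floor.2 this.2⟩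
  have hcard : k ≤ (Finset.Icc ⌈a⌉ ⌊a + W⌋).card * 2 := by
    by_contra hcon
    push Not at hcon
    obtain ⟨y, hy, hfib⟩ := Finset.exists_lt_card_fiber_of_mul_lt_card_of_maps_to hmaps
      (by rw [Finset.card_range]; exact hcon)
    rw [Finset.two_lt_card] at hfib
    obtain ⟨x1, hx1, x2, hx2, x3, hx3, h12, h13, h23⟩ := hfib
    rw [Finset.mem_filter, Finset.mem_range] at hx1 hx2 hx3
    obtain ⟨b1, e1⟩ := hx1
    obtain ⟨b2, e2⟩ := hx2
    obtain ⟨b3, e3⟩ := hx3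
    have e12 : m x1 = m x2 := e1.trans e2.symm
    have e13 : m x1 = m x3 := e1.trans e3.symm
    have e23 : m x2 = m x3 := e2.trans e3.symm
    rcases lt_or_gt_of_ne h12 with q12 | q12 <;> rcases lt_or_gt_of_ne h13 with q13 | q13 <;>
      rcases lt_or_gt_of_ne h23 with q23 | q23
    · exact h3 x1 x2 x3 q12 q23 b3 e12 e23
    · exact h3 x1 x3 x2 q13 q23 b2 e13 e23.symm
    · omega
    · exact h3 x3 x1 x2 q13 q12 b2 e13.symm e12
    · exact h3 x2 x1 x3 q12 q13 b3 e12.symm e13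
    · omega
    · exact h3 x2 x3 x1 q23 q13 b1 e23 e13.symm
    · exact h3 x3 x2 x1 q23 q12 b1 e23.symm e12.symm
  have hc2 : (((Finset.Icc ⌈a⌉ ⌊a + W⌋).card : ℕ) : ℝ) ≤ W + 1 := by
    rw [Int.card_Icc]
    rcases le_total 0 (⌊a + W⌋ + 1 - ⌈a⌉) with h | h
    · have h1 : (((⌊a + W⌋ + 1 - ⌈a⌉).toNat : ℤ) : ℝ) = ((⌊a + W⌋ + 1 - ⌈a⌉ : ℤ) : ℝ) := by
        rw [Int.toNat_of_nonneg h]
      have h2 : (((⌊a + W⌋ + 1 - ⌈a⌉).toNat : ℕ) : ℝ) = ((⌊a + W⌋ + 1 - ⌈a⌉ : ℤ) : ℝ) := by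
        rw [← h1]; push_cast; rfl
      rw [h2]
      push_cast
      have := Int.floor_le (a + W)
      have := Int.le_ceil a
      linarith
    · rw [Int.toNat_of_nonpos h]
      push_cast
      linarith
  have : (k : ℝ) ≤ ((Finset.Icc ⌈a⌉ ⌊a + W⌋).card : ℝ) * 2 := by exact_mod_cast hcard
  linarith

/-- everything drawn lies in the box -/
lemma Drawing.FitsIn.part {W H : ℝ} (h : D.FitsIn W H) : ∃ a c : ℝ, ∀ z ∈ D.part Set.univ,
    z.1 ∈ Set.Icc a (a + W) ∧ z.2 ∈ Set.Icc c (c + H) := by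
  obtain ⟨a, c, h1, h2⟩ := h
  refine ⟨a, c, ?_⟩
  rintro z (⟨v, -, rfl⟩ | ⟨u, -, v, -, he, hz⟩)
  · exact h1 v
  · exact h2 u v he z hz

/-- the width and the height of a drawing containing `k` nested cycles are at least
`k / 2 - 1` -/
theorem box_bound [Finite V] (hg : Nest E k g) {W H : ℝ} (hW : 0 ≤ W) (hH : 0 ≤ H)
    (h : D.FitsIn W H) : (k : ℝ) ≤ 2 * (W + 1) ∧ (k : ℝ) ≤ 2 * (H + 1) := by
  obtain ⟨a, c, hbox⟩ := h.part
  constructor
  · exact extent D hg (LinearMap.fst ℝ ℝ ℝ) (fun p => p.1) (fun p => rfl) (1, 0) rfl a W hW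
      (fun z hz => (hbox z hz).1)
  · exact extent D hg (LinearMap.snd ℝ ℝ ℝ) (fun p => p.2) (fun p => rfl) (0, 1) rfl c H hH
      (fun z hz => (hbox z hz).2)

/-- every drawing is contained in some box -/
lemma Drawing.exists_box [Finite V] : ∃ W H : ℝ, 0 ≤ W ∧ 0 ≤ H ∧ D.FitsIn W H := by
  classical
  by_cases hV : Nonempty V
  swap
  · rw [not_nonempty_iff] at hV
    exact ⟨0, 0, le_rfl, le_rfl, 0, 0, fun v => (hV.false v).elim, fun v => (hV.false v).elim⟩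
  have hY : (Set.univ : Set V).Nonempty := Set.univ_nonempty
  obtain ⟨m1, h1, -⟩ := D.exists_min (LinearMap.fst ℝ ℝ ℝ) (fun p => p.1) (fun p => rfl) hY
  obtain ⟨m2, h2, -⟩ := D.exists_min (-LinearMap.fst ℝ ℝ ℝ) (fun p => -p.1)
    (fun p => by simp [toPlane]) hY
  obtain ⟨m3, h3, -⟩ := D.exists_min (LinearMap.snd ℝ ℝ ℝ) (fun p => p.2) (fun p => rfl) hY
  obtain ⟨m4, h4, -⟩ := D.exists_min (-LinearMap.snd ℝ ℝ ℝ) (fun p => -p.2)
    (fun p => by simp [toPlane]) hY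
  have key : ∀ z ∈ D.part Set.univ, z.1 ∈ Set.Icc (m1 : ℝ) (-m2) ∧
      z.2 ∈ Set.Icc (m3 : ℝ) (-m4) := by
    intro z hz
    have q1 := h1 z hz
    have q2 := h2 z hz
    have q3 := h3 z hz
    have q4 := h4 z hz
    simp only [LinearMap.fst_apply, LinearMap.snd_apply, LinearMap.neg_apply] at q1 q2 q3 q4
    exact ⟨⟨q1, by linarith⟩, ⟨q3, by linarith⟩⟩
  obtain ⟨v⟩ := hV
  have kv := key _ (Or.inl ⟨v, Set.mem_univ _, rfl⟩)
  refine ⟨-m2 - m1, -m4 - m3, ?_, ?_, m1, m3, ?_, ?_⟩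
  · have := kv.1.1.trans kv.1.2; linarith
  · have := kv.2.1.trans kv.2.2; linarith
  · intro v
    have := key _ (Or.inl ⟨v, Set.mem_univ _, rfl⟩)
    simpa using this
  · intro u v he z hz
    have := key z (Or.inr ⟨u, Set.mem_univ _, v, Set.mem_univ _, he, hz⟩)
    simpa using this

end

theorem le_minPolyArea {V : Type} [Finite V] {E : V → V → Prop} {k : ℕ} {g : ℕ → ℕ → V}
    (hg : Nest E k g) (hk : 2 ≤ k) (hne : Nonempty (Drawing E)) :
    ((k : ℝ) / 2 - 1) ^ 2 ≤ minPolyArea E := by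
  have hk' : (2 : ℝ) ≤ k := by exact_mod_cast hk
  obtain ⟨D⟩ := hne
  obtain ⟨W, H, hW, hH, hfit⟩ := D.exists_box
  refine le_csInf ⟨W * H, D, W, H, hW, hH, hfit, rfl⟩ ?_
  rintro A ⟨D, W, H, hW, hH, hfit, rfl⟩
  obtain ⟨h1, h2⟩ := box_bound D hg hW hH hfit
  rw [sq]
  apply mul_le_mul <;> linarith

theorem le_minStraightArea {V : Type} [Finite V] {E : V → V → Prop} {k : ℕ} {g : ℕ → ℕ → V}
    (hg : Nest E k g) (hk : 2 ≤ k) (hne : ∃ D : Drawing E, D.Straight) :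
    ((k : ℝ) / 2 - 1) ^ 2 ≤ minStraightArea E := by
  have hk' : (2 : ℝ) ≤ k := by exact_mod_cast hk
  obtain ⟨D, hD⟩ := hne
  obtain ⟨W, H, hW, hH, hfit⟩ := D.exists_box
  refine le_csInf ⟨W * H, D, W, H, hD, hW, hH, hfit, rfl⟩ ?_
  rintro A ⟨D, W, H, -, hW, hH, hfit, rfl⟩
  obtain ⟨h1, h2⟩ := box_bound D hg hW hH hfit
  rw [sq]
  apply mul_le_mul <;> linarith

end Pool.Agent.T6.H90.Upward
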