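import Pool.Agent.T6.H90.Upward.Area

set_option autoImplicit false

/-!
# An upward straight-line drawing of nested 4-cycles

Sources lie on the vertical axis, at the points `(0, s)`. The sinks lie at the points `(± T, 2 T)`.
The layer number `j` consists of the points `(0, -R)`, `(-R, 2 R)`, `(0, R)`, `(R, 2 R)`, `R = j + 2`.
-/

namespace Pool.Agent.T6.H90.Upward

open Set

/-- the vertex number `i` is a source -/
def isSrc (k i : ℕ) : Prop := i % 4 = 0 ∨ i % 4 = 2 ∨ k ≤ i / 4

instance (k i : ℕ) : Decidable (isSrc k i) := by unfold isSrc; infer_instance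

/-- the height of the source number `i` -/
def sg (k i : ℕ) : ℤ :=
  if i / 4 < k then (if i % 4 = 0 then -(((i / 4 : ℕ) : ℤ) + 2) else ((i / 4 : ℕ) : ℤ) + 2)
  else -((k : ℤ) + 2 + ((i % 4 : ℕ) : ℤ))

/-- the radius of the sink number `i` -/
def tp (i : ℕ) : ℤ := ((i / 4 : ℕ) : ℤ) + 2

/-- the side of the sink number `i` -/
def sd (i : ℕ) : ℤ := if i % 4 = 1 then -1 else 1

/-- the source at height `σ` is joined to the sink of radius `T` on the side `s` -/
def adj (k : ℕ) (s σ T : ℤ) : Prop :=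
  σ = T ∨ σ = T - s ∨ σ = -T ∨ σ = -(T + s) ∨ (s = 1 ∧ σ < -((k : ℤ) + 1) ∧ T = k + 1)

/-- the edges, directed from the sources to the sinks -/
def EE (k n : ℕ) (i j : Fin n) : Prop :=
  isSrc k i.val ∧ ¬ isSrc k j.val ∧ adj k (sd j.val) (sg k i.val) (tp j.val)

/-- the points of the vertices -/
def ps (k : ℕ) (i : ℕ) : ℤ × ℤ := if isSrc k i then (0, sg k i) else (sd i * tp i, 2 * tp i)

lemma bipartite (k n : ℕ) : IsBipartiteDAG (EE k n) :=
  ⟨{i | isSrc k i.val}, fun _ _ h => ⟨h.1, h.2.1⟩⟩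

lemma sd_cases (i : ℕ) : sd i = -1 ∨ sd i = 1 := by
  unfold sd; split_ifs <;> simp

/-- the numerical facts on edges -/
lemma edge_facts {n : ℕ} {i j : Fin n} (_hi : isSrc (n / 4) i.val)
    (hj : ¬ isSrc (n / 4) j.val) (h : adj (n / 4) (sd j.val) (sg (n / 4) i.val) (tp j.val)) :
    2 ≤ tp j.val ∧ tp j.val ≤ (n / 4 : ℕ) + 1 ∧ sg (n / 4) i.val < 2 * tp j.val ∧
      (2 ≤ sg (n / 4) i.val ∨ sg (n / 4) i.val ≤ -2) ∧
      (0 < sg (n / 4) i.val → sg (n / 4) i.val ≤ (n / 4 : ℕ) + 1) := by
  have h1 := i.isLt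
  have h2 := j.isLt
  unfold isSrc at hj
  unfold adj at h
  unfold tp at h ⊢
  unfold sg at h ⊢
  unfold sd at h
  generalize hk : n / 4 = k at *
  split_ifs at h ⊢ <;> push_cast at h ⊢ <;> omega

/-- monotonicity -/
lemma mono_facts {k : ℕ} {s σ T σ' T' : ℤ} (hs : s = -1 ∨ s = 1) (h : adj k s σ T)
    (h' : adj k s σ' T') (hT : 2 ≤ T) (hT' : 2 ≤ T') (hTk : T ≤ k + 1) :
    (0 < σ → 0 < σ' → σ < σ' → T ≤ T') ∧ (σ < 0 → σ' < 0 → σ' < σ → T ≤ T') := by
  unfold adj at h h'
  rcases hs with rfl | rfl <;> omega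

lemma seg_param {s σ T : ℤ} {z : ℝ × ℝ}
    (hz : z ∈ segment ℝ (toPlane (0, σ)) (toPlane (s * T, 2 * T))) :
    ∃ t : ℝ, 0 ≤ t ∧ t ≤ 1 ∧ z.1 = s * (t * T) ∧ z.2 - 2 * (t * T) = (1 - t) * σ := by
  obtain ⟨a, b, ha, hb, hab, rfl⟩ := hz
  refine ⟨b, hb, by linarith, ?_, ?_⟩
  · simp only [toPlane, Prod.fst_add, Prod.smul_fst, smul_eq_mul]
    push_cast; ring
  · simp only [toPlane, Prod.snd_add, Prod.smul_snd, smul_eq_mul]
    push_cast
    have : a = 1 - b := by linarith
    rw [this]; ring

lemma z_source {s σ T : ℤ} {z : ℝ × ℝ} (h1 : z.1 = s * ((0 : ℝ) * T))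
    (h2 : z.2 - 2 * ((0 : ℝ) * T) = (1 - 0) * σ) : z = toPlane (0, σ) := by
  apply Prod.ext
  · simp only [toPlane]; rw [h1]; push_cast; ring
  · simp only [toPlane]; linarith

lemma z_sink {s σ T : ℤ} {z : ℝ × ℝ} (h1 : z.1 = s * ((1 : ℝ) * T))
    (h2 : z.2 - 2 * ((1 : ℝ) * T) = (1 - 1) * σ) : z = toPlane (s * T, 2 * T) := by
  apply Prod.ext
  · simp only [toPlane]; rw [h1]; push_cast; ring
  · simp only [toPlane]; push_cast; linarith

/-- two segments with common point -/
lemma seg_inter {s σ T s' σ' T' : ℤ} (hs : s = -1 ∨ s = 1) (hs' : s' = -1 ∨ s' = 1)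
    (hT : 2 ≤ T) (hT' : 2 ≤ T') (hσ : 2 ≤ σ ∨ σ ≤ -2) (hσ' : 2 ≤ σ' ∨ σ' ≤ -2)
    (hm : s = s' → (0 < σ → 0 < σ' → σ < σ' → T ≤ T') ∧ (σ < 0 → σ' < 0 → σ' < σ → T ≤ T'))
    (hm' : s = s' → (0 < σ' → 0 < σ → σ' < σ → T' ≤ T) ∧ (σ' < 0 → σ < 0 → σ < σ' → T' ≤ T))
    {z : ℝ × ℝ} (hz : z ∈ segment ℝ (toPlane (0, σ)) (toPlane (s * T, 2 * T)))
    (hz' : z ∈ segment ℝ (toPlane (0, σ')) (toPlane (s' * T', 2 * T'))) :
    (σ = σ' ∧ z = toPlane (0, σ)) ∨ (s = s' ∧ T = T' ∧ z = toPlane (s * T, 2 * T)) ∨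
      (s = s' ∧ σ = σ' ∧ T = T') := by
  have hσ0 : σ ≠ 0 := by clear hm hm'; omega
  have hσ0' : σ' ≠ 0 := by clear hm hm'; omega
  have hsg : (0 < σ ∧ 0 < σ') ∨ (σ < 0 ∧ σ' < 0) ∨ (0 < σ ∧ σ' < 0) ∨ (σ < 0 ∧ 0 < σ') := by
    clear hm hm'; omega
  clear hσ hσ'
  have hσr : (σ : ℝ) ≠ 0 := by exact_mod_cast hσ0
  have hσr' : (σ' : ℝ) ≠ 0 := by exact_mod_cast hσ0'
  obtain ⟨t, ht0, ht1, h1, h2⟩ := seg_param hz
  obtain ⟨u, hu0, hu1, h3, h4⟩ := seg_param hz'
  have hTr : (2 : ℝ) ≤ T := by exact_mod_cast hT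
  have hTr' : (2 : ℝ) ≤ T' := by exact_mod_cast hT'
  by_cases hss : s = s'
  swap
  · -- different sides
    left
    have hneg : (s : ℝ) = -s' := by
      rcases hs with rfl | rfl <;> rcases hs' with rfl | rfl <;> simp_all
    have hs2 : (s' : ℝ) * s' = 1 := by rcases hs' with rfl | rfl <;> norm_num
    have h5 : t * T + u * T' = 0 := by
      have h6 : (s : ℝ) * (t * T) = s' * (u * T') := by rw [← h1, ← h3]
      rw [hneg] at h6
      have h7 : (s' : ℝ) * (t * T + u * T') = 0 := by linarith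
      have h8 : (s' : ℝ) ≠ 0 := by rintro h; rw [h] at hs2; norm_num at hs2
      exact (mul_eq_zero.1 h7).resolve_left h8
    have n1 : 0 ≤ t * (T : ℝ) := mul_nonneg ht0 (by linarith)
    have n2 : 0 ≤ u * (T' : ℝ) := mul_nonneg hu0 (by linarith)
    have ht : t = 0 := by
      have : t * (T : ℝ) = 0 := by linarith
      exact (mul_eq_zero.1 this).resolve_right (by linarith)
    have hu : u = 0 := by
      have : u * (T' : ℝ) = 0 := by linarith
      exact (mul_eq_zero.1 this).resolve_right (by linarith)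
    subst ht; subst hu
    refine ⟨?_, z_source h1 h2⟩
    have : (σ : ℝ) = σ' := by linarith
    exact_mod_cast this
  subst hss
  obtain ⟨m1, m2⟩ := hm rfl
  obtain ⟨m3, m4⟩ := hm' rfl
  have hs2 : (s : ℝ) * s = 1 := by rcases hs with rfl | rfl <;> norm_num
  have hs0 : (s : ℝ) ≠ 0 := by rintro h; rw [h] at hs2; norm_num at hs2
  have hA : t * T = u * T' := mul_left_cancel₀ hs0 (by rw [← h1, ← h3])
  have hB : (1 - t) * σ = (1 - u) * σ' := by rw [← h2, ← h4, hA]
  -- sinks
  by_cases hsame : t = 1 ∧ u = 1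
  · obtain ⟨rfl, rfl⟩ := hsame
    right; left
    refine ⟨rfl, ?_, z_sink h1 h2⟩
    have : (T : ℝ) = T' := by linarith
    exact_mod_cast this
  have ht1' : t < 1 ∧ u < 1 := by
    by_contra hcon
    apply hsame
    rcases ht1.eq_or_lt with rfl | ht
    · refine ⟨rfl, ?_⟩
      have h0 : (1 - u) * (σ' : ℝ) = 0 := by rw [← hB]; ring
      have := (mul_eq_zero.1 h0).resolve_right hσr'
      linarith
    · rcases hu1.eq_or_lt with rfl | hu
      · refine ⟨?_, rfl⟩
        have h0 : (1 - t) * (σ : ℝ) = 0 := by rw [hB]; ring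
        have := (mul_eq_zero.1 h0).resolve_right hσr
        linarith
      · exact absurd ⟨ht, hu⟩ hcon
  obtain ⟨ht1', hu1'⟩ := ht1'
  -- equal heights
  by_cases hσσ : σ = σ'
  · subst hσσ
    have htu : t = u := by
      have := mul_right_cancel₀ hσr hB
      linarith
    subst htu
    rcases ht0.eq_or_lt with rfl | ht0'
    · exact Or.inl ⟨rfl, z_source h1 h2⟩
    · right; right
      refine ⟨rfl, rfl, ?_⟩
      have := mul_left_cancel₀ ht0'.ne' hA
      exact_mod_cast this
  exfalso
  -- the same sign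
  have hpos : (0 < σ ∧ 0 < σ') ∨ (σ < 0 ∧ σ' < 0) := by
    rcases hsg with h | h | ⟨h, h'⟩ | ⟨h, h'⟩
    · exact Or.inl h
    · exact Or.inr h
    · exfalso
      have a1 : (0 : ℝ) < σ := by exact_mod_cast h
      have a2 : (σ' : ℝ) < 0 := by exact_mod_cast h'
      have a3 := mul_pos (by linarith : (0 : ℝ) < 1 - t) a1
      have a4 := mul_neg_of_pos_of_neg (by linarith : (0 : ℝ) < 1 - u) a2
      linarith
    · exfalso
      have a1 : (0 : ℝ) < σ' := by exact_mod_cast h'
      have a2 : (σ : ℝ) < 0 := by exact_mod_cast h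
      have a3 := mul_pos (by linarith : (0 : ℝ) < 1 - u) a1
      have a4 := mul_neg_of_pos_of_neg (by linarith : (0 : ℝ) < 1 - t) a2
      linarith
  -- general contradiction
  have gen : ∀ (x y X Y t u : ℝ), 0 < x → x < y → 0 < X → X ≤ Y → 0 ≤ t → 0 ≤ u → t < 1 → u < 1 →
      t * X = u * Y → (1 - t) * x = (1 - u) * y → False := by
    intro x y X Y t u hx hxy hX hXY ht hu ht1 hu1 h1 h2
    have h3 : u ≤ t := by
      by_contra hcon
      push Not at hcon
      have : t * X < u * Y := by
        calc t * X ≤ t * Y := mul_le_mul_of_nonneg_left hXY ht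
          _ < u * Y := mul_lt_mul_of_pos_right hcon (by linarith)
      linarith
    have h4 : (1 - t) * x < (1 - u) * y := by
      calc (1 - t) * x < (1 - t) * y := mul_lt_mul_of_pos_left hxy (by linarith)
        _ ≤ (1 - u) * y := mul_le_mul_of_nonneg_right (by linarith) (by linarith)
    linarith
  rcases hpos with ⟨p1, p2⟩ | ⟨p1, p2⟩
  · rcases lt_or_gt_of_ne hσσ with h | h
    · exact gen σ σ' T T' t u (by exact_mod_cast p1) (by exact_mod_cast h) (by linarith)
        (by exact_mod_cast m1 p1 p2 h) ht0 hu0 ht1' hu1' hA hB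
    · exact gen σ' σ T' T u t (by exact_mod_cast p2) (by exact_mod_cast h) (by linarith)
        (by exact_mod_cast m3 p2 p1 h) hu0 ht0 hu1' ht1' hA.symm hB.symm
  · rcases lt_or_gt_of_ne hσσ with h | h
    · have b1 : (σ' : ℝ) < 0 := by exact_mod_cast p2
      have b2 : (σ : ℝ) < σ' := by exact_mod_cast h
      exact gen (-σ') (-σ) T' T u t (by linarith) (by linarith) (by linarith)
        (by exact_mod_cast m4 p2 p1 h) hu0 ht0 hu1' ht1' hA.symm (by linarith)
    · have b1 : (σ : ℝ) < 0 := by exact_mod_cast p1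
      have b2 : (σ' : ℝ) < σ := by exact_mod_cast h
      exact gen (-σ) (-σ') T T' t u (by linarith) (by linarith) (by linarith)
        (by exact_mod_cast m2 p1 p2 h) ht0 hu0 ht1' hu1' hA (by linarith)

lemma ps_src {k i : ℕ} (h : isSrc k i) : ps k i = (0, sg k i) := by unfold ps; rw [if_pos h]

lemma ps_snk {k i : ℕ} (h : ¬ isSrc k i) : ps k i = (sd i * tp i, 2 * tp i) := by
  unfold ps; rw [if_neg h]

lemma ps_inj (n : ℕ) : Function.Injective (fun i : Fin n => ps (n / 4) i.val) := by
  intro i j h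
  have hi := i.isLt
  have hj := j.isLt
  apply Fin.ext
  simp only at h
  generalize hk : n / 4 = k at *
  by_cases h1 : isSrc k i.val <;> by_cases h2 : isSrc k j.val
  · rw [ps_src h1, ps_src h2] at h
    have h3 := congrArg Prod.snd h
    simp only [sg] at h3
    unfold isSrc at h1 h2
    split_ifs at h3 <;> omega
  · rw [ps_src h1, ps_snk h2] at h
    have h3 := congrArg Prod.fst h
    simp only at h3
    unfold sd tp at h3
    split_ifs at h3 <;> omega
  · rw [ps_snk h1, ps_src h2] at h
    have h3 := congrArg Prod.fst h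
    simp only at h3
    unfold sd tp at h3
    split_ifs at h3 <;> omega
  · rw [ps_snk h1, ps_snk h2] at h
    have h3 := congrArg Prod.fst h
    have h4 := congrArg Prod.snd h
    simp only at h3 h4
    unfold isSrc at h1 h2
    unfold sd tp at h3
    unfold tp at h4
    split_ifs at h3 <;> omega

/-- the drawing -/
def drawing (n : ℕ) : Drawing (EE (n / 4) n) where
  pos i := ps (n / 4) i.val
  bends _ _ := []
  pos_injective := ps_inj n
  upward := by
    rintro u v ⟨h1, h2, h3⟩
    have := (edge_facts h1 h2 h3).2.2.1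
    rw [List.nil_append, List.isChain_pair, ps_src h1, ps_snk h2]
    exact this
  vertex_not_on_edge := by
    rintro u v w ⟨h1, h2, h3⟩ hw
    obtain ⟨f1, f2, f3, f4, f5⟩ := edge_facts h1 h2 h3
    have hw' : toPlane (ps (n / 4) w.val) ∈
        segment ℝ (toPlane (0, sg (n / 4) u.val)) (toPlane (sd v.val * tp v.val, 2 * tp v.val)) := by
      rw [curve, List.nil_append, ps_src h1, ps_snk h2] at hw
      rcases hw with hw | hw
      · exact hw
      · simp only [chain, mem_singleton_iff] at hw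
        rw [hw]
        exact right_mem_segment ℝ _ _
    obtain ⟨t, ht0, ht1, e1, e2⟩ := seg_param hw'
    have hTr : (2 : ℝ) ≤ tp v.val := by exact_mod_cast f1
    have hsd := sd_cases v.val
    have hs0 : (sd v.val : ℝ) ≠ 0 := by
      rcases hsd with h | h <;> rw [h] <;> norm_num
    by_cases hsrc : isSrc (n / 4) w.val
    · left
      rw [ps_src hsrc] at e1 e2
      simp only [toPlane, Int.cast_zero] at e1 e2
      have ht : t = 0 := by
        have h0 : t * (tp v.val : ℝ) = 0 := (mul_eq_zero.1 e1.symm).resolve_left hs0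
        exact (mul_eq_zero.1 h0).resolve_right (by linarith)
      subst ht
      have h5 : (sg (n / 4) w.val : ℝ) = sg (n / 4) u.val := by linarith
      have h6 : sg (n / 4) w.val = sg (n / 4) u.val := by exact_mod_cast h5
      apply ps_inj n
      simp only
      rw [ps_src hsrc, ps_src h1, h6]
    · right
      rw [ps_snk hsrc] at e1 e2
      simp only [toPlane] at e1 e2
      push_cast at e1 e2
      have hTw : 0 < tp w.val := by unfold tp; omega
      have hTwr : (0 : ℝ) < tp w.val := by exact_mod_cast hTw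
      have hsdw := sd_cases w.val
      have hss : sd w.val = sd v.val := by
        have htT : 0 ≤ t * (tp v.val : ℝ) := mul_nonneg ht0 (by linarith)
        rcases hsd with h | h <;> rcases hsdw with h' | h'
        · rw [h, h']
        · exfalso
          rw [h, h'] at e1
          push_cast at e1
          linarith
        · exfalso
          rw [h, h'] at e1
          push_cast at e1
          linarith
        · rw [h, h']
      rw [hss] at e1
      have e3 : (tp w.val : ℝ) = t * tp v.val := mul_left_cancel₀ hs0 e1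
      have e4 : (1 - t) * (sg (n / 4) u.val : ℝ) = 0 := by rw [← e2, ← e3]; ring
      have hσ : (sg (n / 4) u.val : ℝ) ≠ 0 := by
        have : sg (n / 4) u.val ≠ 0 := by omega
        exact_mod_cast this
      have ht : t = 1 := by
        have := (mul_eq_zero.1 e4).resolve_right hσ
        linarith
      subst ht
      rw [one_mul] at e3
      have e5 : tp w.val = tp v.val := by exact_mod_cast e3
      apply ps_inj n
      simp only
      rw [ps_snk hsrc, ps_snk h2, hss, e5]
  planar := by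
    rintro u v x y ⟨h1, h2, h3⟩ ⟨h4, h5, h6⟩ hne z hz hz'
    obtain ⟨f1, f2, f3, f4, f5⟩ := edge_facts h1 h2 h3
    obtain ⟨g1, g2, g3, g4, g5⟩ := edge_facts h4 h5 h6
    have conv : ∀ u v : Fin n, isSrc (n / 4) u.val → ¬ isSrc (n / 4) v.val →
        ∀ z ∈ curve (ps (n / 4) u.val) (ps (n / 4) v.val) [],
        z ∈ segment ℝ (toPlane (0, sg (n / 4) u.val))
          (toPlane (sd v.val * tp v.val, 2 * tp v.val)) := by
      intro u v h1 h2 z hz
      rw [curve, List.nil_append, ps_src h1, ps_snk h2] at hz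
      rcases hz with hz | hz
      · exact hz
      · simp only [chain, mem_singleton_iff] at hz
        rw [hz]
        exact right_mem_segment ℝ _ _
    have hm : sd v.val = sd y.val → _ := fun h =>
      mono_facts (sd_cases v.val) h3 (by rw [h]; exact h6) f1 g1 f2
    have hm' : sd v.val = sd y.val → _ := fun h =>
      mono_facts (sd_cases v.val) (by rw [h]; exact h6) h3 g1 f1 g2
    rcases seg_inter (sd_cases v.val) (sd_cases y.val) f1 g1 f4 g4 hm hm'
      (conv u v h1 h2 z hz) (conv x y h4 h5 z hz') with ⟨e1, e2⟩ | ⟨e1, e2, e3⟩ | ⟨e1, e2, e3⟩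
    · have hux : u = x := by
        apply ps_inj n
        simp only
        rw [ps_src h1, ps_src h4, e1]
      exact ⟨u, Or.inl rfl, Or.inl hux, by rw [e2, ps_src h1]⟩
    · have hvy : v = y := by
        apply ps_inj n
        simp only
        rw [ps_snk h2, ps_snk h5, e1, e2]
      exact ⟨v, Or.inr rfl, Or.inr hvy, by rw [e3, ps_snk h2]⟩
    · exfalso
      apply hne
      have hux : u = x := by
        apply ps_inj n
        simp only
        rw [ps_src h1, ps_src h4, e2]
      have hvy : v = y := by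
        apply ps_inj n
        simp only
        rw [ps_snk h2, ps_snk h5, e1, e3]
      rw [hux, hvy]

lemma drawing_straight (n : ℕ) : (drawing n).Straight := fun _ _ _ => rfl

/-- the vertex of the layer `j` in the column `m` -/
def gg (n : ℕ) (hn : 0 < n) (j m : ℕ) : Fin n := ⟨(4 * j + (m + j) % 4) % n, Nat.mod_lt _ hn⟩

lemma gg_val {n : ℕ} (hn : 0 < n) {j m : ℕ} (hj : j < n / 4) :
    (gg n hn j m).val = 4 * j + (m + j) % 4 := by
  show (4 * j + (m + j) % 4) % n = _
  apply Nat.mod_eq_of_lt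
  omega

lemma nest (n : ℕ) (hn : 0 < n) : Nest (EE (n / 4) n) (n / 4) (gg n hn) where
  inj := by
    intro j m j' m' hj hm hj' hm' h
    have := congrArg Fin.val h
    rw [gg_val hn hj, gg_val hn hj'] at this
    omega
  cyc := by
    intro j hj
    have key : ∀ m m', m' % 4 = (m + 1) % 4 →
        EE (n / 4) n (gg n hn j m) (gg n hn j m') ∨ EE (n / 4) n (gg n hn j m') (gg n hn j m) := by
      intro m m' hmm
      simp only [EE, gg_val hn hj]
      generalize n / 4 = k at *
      have a1 : (4 * j + (m + j) % 4) / 4 = j := by omega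
      have a2 : (4 * j + (m + j) % 4) % 4 = (m + j) % 4 := by omega
      have a3 : (4 * j + (m' + j) % 4) / 4 = j := by omega
      have a4 : (4 * j + (m' + j) % 4) % 4 = (m' + j) % 4 := by omega
      simp only [isSrc, adj, sg, tp, sd, a1, a2, a3, a4]
      have : (m + j) % 4 = 0 ∨ (m + j) % 4 = 1 ∨ (m + j) % 4 = 2 ∨ (m + j) % 4 = 3 := by omega
      rcases this with h | h | h | h
      · have h' : (m' + j) % 4 = 1 := by omega
        simp [h, h', hj]
      · have h' : (m' + j) % 4 = 2 := by omega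
        simp [h, h', hj]
      · have h' : (m' + j) % 4 = 3 := by omega
        simp [h, h', hj]
      · have h' : (m' + j) % 4 = 0 := by omega
        simp [h, h', hj]
    exact ⟨key 0 1 rfl, key 1 2 rfl, key 2 3 rfl, key 3 0 rfl⟩
  col := by
    intro j m hj hm
    have hj' : j < n / 4 := by omega
    simp only [EE, gg_val hn hj, gg_val hn hj']
    generalize n / 4 = k at *
    have a1 : (4 * j + (m + j) % 4) / 4 = j := by omega
    have a2 : (4 * j + (m + j) % 4) % 4 = (m + j) % 4 := by omega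
    have a3 : (4 * (j + 1) + (m + (j + 1)) % 4) / 4 = j + 1 := by omega
    have a4 : (4 * (j + 1) + (m + (j + 1)) % 4) % 4 = (m + (j + 1)) % 4 := by omega
    simp only [isSrc, adj, sg, tp, sd, a1, a2, a3, a4]
    have : (m + j) % 4 = 0 ∨ (m + j) % 4 = 1 ∨ (m + j) % 4 = 2 ∨ (m + j) % 4 = 3 := by omega
    rcases this with h | h | h | h
    · have h' : (m + (j + 1)) % 4 = 1 := by omega
      left
      simp only [h, h', if_true]
      refine ⟨Or.inl trivial, ?_, ?_⟩
      · rintro (h1 | h1 | h1) <;> omega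
      · rw [if_pos hj']
        push_cast; omega
    · have h' : (m + (j + 1)) % 4 = 2 := by omega
      right
      simp only [h, h', if_true]
      refine ⟨Or.inr (Or.inl trivial), ?_, ?_⟩
      · rintro (h1 | h1 | h1) <;> omega
      · rw [if_pos hj, if_neg (by omega)]
        push_cast; omega
    · have h' : (m + (j + 1)) % 4 = 3 := by omega
      left
      simp only [h, h']
      refine ⟨Or.inr (Or.inl trivial), ?_, ?_⟩
      · rintro (h1 | h1 | h1) <;> omega
      · rw [if_pos hj', if_neg (by omega), if_neg (by omega)]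
        push_cast; omega
    · have h' : (m + (j + 1)) % 4 = 0 := by omega
      right
      simp only [h, h', if_true]
      refine ⟨Or.inl trivial, ?_, ?_⟩
      · rintro (h1 | h1 | h1) <;> omega
      · rw [if_pos hj, if_neg (by omega)]
        push_cast; omega

end Pool.Agent.T6.H90.Upward
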