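import Pool.Agent.T6.H90.Upward.Topo

set_option autoImplicit false

/-!
# Nested cycles in an upward drawing

A drawing of a graph containing `k` disjoint 4-cycles, consecutive ones of which are joined by three
disjoint edges, needs a rectangle of width and height at least `k / 2 - 1`.
-/

namespace Pool.Agent.T6.H90.Upward

open Set

/-- the plane as the complex numbers -/
noncomputable def toC (x : ℝ × ℝ) : ℂ := ⟨x.1, x.2⟩

theorem toC_cont : Continuous toC := by
  have h : toC = fun x : ℝ × ℝ => (x.1 : ℂ) + (x.2 : ℂ) * Complex.I := by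
    funext x
    apply Complex.ext <;> simp [toC]
  rw [h]
  fun_prop

theorem toC_inj : Function.Injective toC := by
  intro x y h
  have h1 := congrArg Complex.re h
  have h2 := congrArg Complex.im h
  exact Prod.ext h1 h2

/-- The vertices `g j m`, `j < k`, `m < 4`, form `k` disjoint 4-cycles, consecutive ones of which are
joined by three disjoint edges. -/
structure Nest {V : Type} (E : V → V → Prop) (k : ℕ) (g : ℕ → ℕ → V) : Prop where
  inj : ∀ j m j' m', j < k → m < 4 → j' < k → m' < 4 → g j m = g j' m' → j = j' ∧ m = m'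
  cyc : ∀ j, j < k → (E (g j 0) (g j 1) ∨ E (g j 1) (g j 0)) ∧
    (E (g j 1) (g j 2) ∨ E (g j 2) (g j 1)) ∧ (E (g j 2) (g j 3) ∨ E (g j 3) (g j 2)) ∧
    (E (g j 3) (g j 0) ∨ E (g j 0) (g j 3))
  col : ∀ j m, j + 1 < k → m < 3 → E (g j m) (g (j + 1) m) ∨ E (g (j + 1) m) (g j m)

section

variable {V : Type} {E : V → V → Prop} (D : Drawing E) {k : ℕ} {g : ℕ → ℕ → V}

/-- the part of the drawing spanned by a set of labels -/
def Drawing.lab (g : ℕ → ℕ → V) (Y : Set (ℕ × ℕ)) : Set (ℝ × ℝ) :=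
  D.part ((fun p : ℕ × ℕ => g p.1 p.2) '' Y)

lemma Drawing.lab_mono {Y Z : Set (ℕ × ℕ)} (h : Y ⊆ Z) : D.lab g Y ⊆ D.lab g Z :=
  D.part_mono (image_mono h)

lemma Drawing.lab_disjoint (hg : Nest E k g) {Y Z : Set (ℕ × ℕ)}
    (hY : ∀ p ∈ Y, p.1 < k ∧ p.2 < 4) (hZ : ∀ p ∈ Z, p.1 < k ∧ p.2 < 4)
    (h : ∀ p ∈ Y, p ∉ Z) : Disjoint (D.lab g Y) (D.lab g Z) := by
  apply D.part_disjoint
  rw [Set.disjoint_left]
  rintro _ ⟨p, hp, rfl⟩ ⟨q, hq, he⟩
  obtain ⟨h1, h2⟩ := hg.inj _ _ _ _ (hZ q hq).1 (hZ q hq).2 (hY p hp).1 (hY p hp).2 he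
  have : q = p := Prod.ext h1 h2
  subst this
  exact h q hp hq

lemma Drawing.lab_adj {Y : Set (ℕ × ℕ)} {j m j' m' : ℕ} (h1 : (j, m) ∈ Y) (h2 : (j', m') ∈ Y)
    (h : E (g j m) (g j' m') ∨ E (g j' m') (g j m)) :
    JoinedIn (D.lab g Y) (toPlane (D.pos (g j m))) (toPlane (D.pos (g j' m'))) :=
  D.joined_adj ⟨_, h1, rfl⟩ ⟨_, h2, rfl⟩ h

lemma Drawing.lab_col (hg : Nest E k g) {Y : Set (ℕ × ℕ)} {m : ℕ} (hm : m < 3) (i : ℕ) (n : ℕ)
    (hk : i + n < k) (h : ∀ t, i ≤ t → t ≤ i + n → (t, m) ∈ Y) :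
    JoinedIn (D.lab g Y) (toPlane (D.pos (g i m))) (toPlane (D.pos (g (i + n) m))) := by
  induction n with
  | zero =>
    refine JoinedIn.refl (Or.inl ⟨g i m, ⟨(i, m), h i le_rfl (by omega), rfl⟩, rfl⟩)
  | succ n ih =>
    refine (ih (by omega) (fun t h1 h2 => h t h1 (by omega))).trans ?_
    exact D.lab_adj (h _ (by omega) (by omega)) (h _ (by omega) (by omega))
      (hg.col (i + n) m (by omega) hm)

lemma Drawing.lab_cyc (hg : Nest E k g) {Y : Set (ℕ × ℕ)} {j : ℕ} (hj : j < k)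
    (h : ∀ m, m < 4 → (j, m) ∈ Y) (m : ℕ) (hm : m < 4) :
    JoinedIn (D.lab g Y) (toPlane (D.pos (g j 0))) (toPlane (D.pos (g j m))) := by
  obtain ⟨h1, h2, h3, h4⟩ := hg.cyc j hj
  have e1 := D.lab_adj (Y := Y) (h 0 (by omega)) (h 1 (by omega)) h1
  have e2 := D.lab_adj (Y := Y) (h 1 (by omega)) (h 2 (by omega)) h2
  have e3 := D.lab_adj (Y := Y) (h 2 (by omega)) (h 3 (by omega)) h3
  interval_cases m
  · exact JoinedIn.refl (Or.inl ⟨g j 0, ⟨(j, 0), h 0 (by omega), rfl⟩, rfl⟩)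
  · exact e1
  · exact e1.trans e2
  · exact (e1.trans e2).trans e3

/-- the cycle number `j` -/
def cycSet (j : ℕ) : Set (ℕ × ℕ) := {p | p.1 = j ∧ p.2 < 4}

/-- the sets of labels of the ten paths -/
def YY (i j l : ℕ) (a b : Fin 5) : Set (ℕ × ℕ) :=
  {p | (a.val = 0 ∧ 1 ≤ b.val ∧ b.val ≤ 3 ∧
        ((p.1 = i ∧ p.2 < 4) ∨ (p.2 + 1 = b.val ∧ i ≤ p.1 ∧ p.1 ≤ j))) ∨
      (b.val = 4 ∧ 1 ≤ a.val ∧ a.val ≤ 3 ∧
        ((p.1 = l ∧ p.2 < 4) ∨ (p.2 + 1 = a.val ∧ j ≤ p.1 ∧ p.1 ≤ l))) ∨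
      (a.val = 1 ∧ b.val = 2 ∧ p.1 = j ∧ (p.2 = 0 ∨ p.2 = 1)) ∨
      (a.val = 2 ∧ b.val = 3 ∧ p.1 = j ∧ (p.2 = 1 ∨ p.2 = 2)) ∨
      (a.val = 1 ∧ b.val = 3 ∧ p.1 = j ∧ (p.2 = 0 ∨ p.2 = 2 ∨ p.2 = 3)) ∨
      (a.val = 0 ∧ b.val = 4 ∧ (p.1 = i ∨ p.1 = l) ∧ p.2 < 4)}

/-- Let `i < j < l`. The cycle `j` cannot lie in a half plane whose closed complement meets both the
cycle `i` and the cycle `l`. -/
theorem no_three (hg : Nest E k g) (f : (ℝ × ℝ) →ₗ[ℝ] ℝ) (e : ℝ × ℝ) (he : f e = 1)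
    (c : ℝ) {i j l : ℕ} (hij : i < j) (hjl : j < l) (hlk : l < k)
    (hi : ∃ z ∈ D.lab g (cycSet i), f z ≤ c) (hl : ∃ z ∈ D.lab g (cycSet l), f z ≤ c)
    (hj : ∀ z ∈ D.lab g (cycSet j), c ≤ f z) : False := by
  classical
  let T : Fin 5 → Fin 5 → Set (ℝ × ℝ) := fun a b =>
    D.lab g (YY i j l a b) ∪ {z | a.val = 0 ∧ b.val = 4 ∧ f z < c}
  have hT : ∀ a b, D.lab g (YY i j l a b) ⊆ T a b := fun a b => subset_union_left
  -- the point of cycle `i` or `l` is joined to the open half plane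
  have half : ∀ z w : ℝ × ℝ, f z ≤ c → f w ≤ c →
      JoinedIn ({z, w} ∪ {x | f x < c}) z w := by
    have h1 : ∀ z : ℝ × ℝ, f z ≤ c → JoinedIn ({z} ∪ {x | f x < c}) z (z - e) := by
      intro z hz
      have hpc : IsPathConnected (segment ℝ z (z - e)) :=
        (convex_segment _ _).isPathConnected ⟨_, left_mem_segment ℝ _ _⟩
      refine (hpc.joinedIn _ (left_mem_segment ℝ _ _) _ (right_mem_segment ℝ _ _)).mono ?_
      rintro x ⟨s, t, hs, ht, hst, rfl⟩
      rcases ht.eq_or_lt with rfl | ht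
      · left
        have : s = 1 := by linarith
        simp [this]
      · right
        show f (s • z + t • (z - e)) < c
        rw [map_add, map_smul, map_smul, map_sub, he, smul_eq_mul, smul_eq_mul]
        have : s * f z + t * (f z - 1) = f z - t := by
          have : s = 1 - t := by linarith
          rw [this]; ring
        rw [this]; linarith
    intro z w hz hw
    have h2 : JoinedIn {x | f x < c} (z - e) (w - e) := by
      have hconv : Convex ℝ {x | f x < c} := by
        have := convex_halfSpace_lt f.isLinear c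
        exact this
      have hne : (z - e) ∈ {x | f x < c} := by
        show f (z - e) < c
        rw [map_sub, he]; linarith
      have hne' : (w - e) ∈ {x | f x < c} := by
        show f (w - e) < c
        rw [map_sub, he]; linarith
      exact (hconv.isPathConnected ⟨_, hne⟩).joinedIn _ hne _ hne'
    refine (((h1 z hz).mono ?_).trans (h2.mono subset_union_right)).trans
      (((h1 w hw).mono ?_).symm)
    · exact union_subset_union_left _ (by simp)
    · exact union_subset_union_left _ (by simp)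
  -- the path through the half plane
  have h04 : JoinedIn (T 0 4) (toPlane (D.pos (g i 0))) (toPlane (D.pos (g l 0))) := by
    obtain ⟨zi, hzi, hfi⟩ := hi
    obtain ⟨zl, hzl, hfl⟩ := hl
    have hsi : D.lab g (cycSet i) ⊆ T 0 4 := by
      refine (D.lab_mono ?_).trans (hT 0 4)
      intro p hp
      simp only [cycSet, mem_ofPred_eq] at hp
      simp only [YY, mem_ofPred_eq]
      right; right; right; right; right
      exact ⟨rfl, rfl, Or.inl hp.1, hp.2⟩
    have hsl : D.lab g (cycSet l) ⊆ T 0 4 := by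
      refine (D.lab_mono ?_).trans (hT 0 4)
      intro p hp
      simp only [cycSet, mem_ofPred_eq] at hp
      simp only [YY, mem_ofPred_eq]
      right; right; right; right; right
      exact ⟨rfl, rfl, Or.inr hp.1, hp.2⟩
    have hmem : ∀ j m, m < 4 → (j, m) ∈ cycSet j := fun j m hm => ⟨rfl, hm⟩
    obtain ⟨_, ⟨pi, hpi, rfl⟩, hji⟩ := D.joined_vertex hzi
    obtain ⟨_, ⟨pl, hpl, rfl⟩, hjl'⟩ := D.joined_vertex hzl
    have a1 : JoinedIn (D.lab g (cycSet i)) (toPlane (D.pos (g i 0))) zi := by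
      have := D.lab_cyc hg (Y := cycSet i) (by omega) (hmem i) pi.2 hpi.2
      have h2 : g pi.1 pi.2 = g i pi.2 := by rw [hpi.1]
      simp only [h2] at hji
      exact this.trans hji
    have a2 : JoinedIn (D.lab g (cycSet l)) (toPlane (D.pos (g l 0))) zl := by
      have := D.lab_cyc hg (Y := cycSet l) (by omega) (hmem l) pl.2 hpl.2
      have h2 : g pl.1 pl.2 = g l pl.2 := by rw [hpl.1]
      simp only [h2] at hjl'
      exact this.trans hjl'
    refine ((a1.mono hsi).trans ((half zi zl hfi hfl).mono ?_)).trans (a2.mono hsl).symm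
    rintro x (hx | hx)
    · rcases hx with rfl | rfl
      · exact hsi hzi
      · exact hsl hzl
    · right
      exact ⟨rfl, rfl, hx⟩
  have hdom : ∀ a b : Fin 5, ∀ p ∈ YY i j l a b, p.1 < k ∧ p.2 < 4 := by
    intro a b p hp
    simp only [YY, mem_ofPred_eq] at hp
    omega
  refine Pool.Agent.Helper448.VanKampen.k5_joined
    (![toC (toPlane (D.pos (g i 0))), toC (toPlane (D.pos (g j 0))),
      toC (toPlane (D.pos (g j 1))), toC (toPlane (D.pos (g j 2))),
      toC (toPlane (D.pos (g l 0)))]) (fun a b => toC '' T a b) ?_ ?_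
  · intro a b hab
    have key : ∀ u v : ℝ × ℝ, JoinedIn (T a b) u v → JoinedIn (toC '' T a b) (toC u) (toC v) := by
      rintro u v ⟨δ, hδ⟩
      exact ⟨δ.map toC_cont, fun t => ⟨δ t, hδ t, rfl⟩⟩
    have hlow : ∀ m : ℕ, m < 3 → ∀ b : Fin 5, b.val = m + 1 →
        JoinedIn (T 0 b) (toPlane (D.pos (g i 0))) (toPlane (D.pos (g j m))) := by
      intro m hm b hb
      refine JoinedIn.mono ?_ (hT 0 b)
      refine (D.lab_cyc hg (Y := YY i j l 0 b) (by omega) ?_ m (by omega)).trans ?_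
      · intro m' hm'
        exact Or.inl ⟨rfl, by omega, by omega, Or.inl ⟨rfl, hm'⟩⟩
      · have := D.lab_col hg (Y := YY i j l 0 b) hm i (j - i) (by omega) (by
          intro t h1 h2
          exact Or.inl ⟨rfl, by omega, by omega, Or.inr ⟨hb.symm, h1, by
            show t ≤ j
            omega⟩⟩)
        rwa [show i + (j - i) = j by omega] at this
    have hupp : ∀ m : ℕ, m < 3 → ∀ a : Fin 5, a.val = m + 1 →
        JoinedIn (T a 4) (toPlane (D.pos (g j m))) (toPlane (D.pos (g l 0))) := by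
      intro m hm a ha
      refine JoinedIn.mono ?_ (hT a 4)
      refine JoinedIn.trans ?_
        (D.lab_cyc hg (Y := YY i j l a 4) (by omega) ?_ m (by omega)).symm
      · have := D.lab_col hg (Y := YY i j l a 4) hm j (l - j) (by omega) (by
          intro t h1 h2
          exact Or.inr (Or.inl ⟨rfl, by omega, by omega, Or.inr ⟨ha.symm, h1, by
            show t ≤ l
            omega⟩⟩))
        rwa [show j + (l - j) = l by omega] at this
      · intro m' hm'
        exact Or.inr (Or.inl ⟨rfl, by omega, by omega, Or.inl ⟨rfl, hm'⟩⟩)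
    obtain ⟨c1, c2, c3, c4⟩ := hg.cyc j (by omega)
    fin_cases a <;> fin_cases b <;> first
      | exact absurd hab (by decide)
      | skip
    · exact key _ _ (hlow 0 (by omega) _ rfl)
    · exact key _ _ (hlow 1 (by omega) _ rfl)
    · exact key _ _ (hlow 2 (by omega) _ rfl)
    · exact key _ _ h04
    · refine key _ _ ((D.lab_adj ?_ ?_ c1).mono (hT 1 2)) <;> simp [YY]
    · refine key _ _ (((D.lab_adj ?_ ?_ c3).trans (D.lab_adj ?_ ?_ c4)).symm.mono (hT 1 3)) <;>
        simp [YY]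
    · exact key _ _ (hupp 0 (by omega) _ rfl)
    · refine key _ _ ((D.lab_adj ?_ ?_ c2).mono (hT 2 3)) <;> simp [YY]
    · exact key _ _ (hupp 1 (by omega) _ rfl)
    · exact key _ _ (hupp 2 (by omega) _ rfl)
  · intro a b c' d hab hcd h1 h2 h3 h4
    have hab' : a.val < b.val := hab
    have hcd' : c'.val < d.val := hcd
    have h1' : a.val ≠ c'.val := fun h => h1 (Fin.ext h)
    have h2' : a.val ≠ d.val := fun h => h2 (Fin.ext h)
    have h3' : b.val ≠ c'.val := fun h => h3 (Fin.ext h)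
    have h4' : b.val ≠ d.val := fun h => h4 (Fin.ext h)
    rw [Set.disjoint_image_iff toC_inj]
    have hYY : Disjoint (D.lab g (YY i j l a b)) (D.lab g (YY i j l c' d)) := by
      apply D.lab_disjoint hg (hdom a b) (hdom c' d)
      intro p hp hq
      have ha := a.isLt; have hb := b.isLt; have hc := c'.isLt; have hd := d.isLt
      simp only [YY, mem_ofPred_eq] at hp hq
      omega
    have hcyc : ∀ a b : Fin 5, a.val < b.val → a.val ≠ 0 → b.val ≠ 4 →
        D.lab g (YY i j l a b) ⊆ D.lab g (cycSet j) := by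
      intro a b hab ha hb
      apply D.lab_mono
      intro p hp
      have ha := a.isLt; have hb := b.isLt
      simp only [YY, mem_ofPred_eq] at hp
      simp only [cycSet, mem_ofPred_eq]
      omega
    rw [Set.disjoint_union_left, Set.disjoint_union_right, Set.disjoint_union_right]
    refine ⟨⟨hYY, ?_⟩, ?_, ?_⟩
    · rw [Set.disjoint_left]
      rintro z hz ⟨q1, q2, q3⟩
      have := hj z (hcyc a b hab' (by omega) (by omega) hz)
      linarith
    · rw [Set.disjoint_left]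
      rintro z ⟨q1, q2, q3⟩ hz
      have := hj z (hcyc c' d hcd' (by omega) (by omega) hz)
      linarith
    · rw [Set.disjoint_left]
      rintro z ⟨q1, q2, q3⟩ ⟨q4, q5, q6⟩
      omega

end

end Pool.Agent.T6.H90.Upward
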