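import Pool.Agent.T6.H90.Upward.Defs
import Pool.Agent.Helper448.VanKampen

set_option autoImplicit false

/-!
# Parts of a drawing spanned by sets of vertices
-/

namespace Pool.Agent.T6.H90.Upward

open Set

lemma start_mem_chain (a : ℤ × ℤ) (l : List (ℤ × ℤ)) : toPlane a ∈ chain (a :: l) := by
  cases l with
  | nil => simp [chain]
  | cons b l => exact Or.inl (left_mem_segment ℝ _ _)

lemma joined_chain (l : List (ℤ × ℤ)) : ∀ a : ℤ × ℤ, ∀ z ∈ chain (a :: l),
    JoinedIn (chain (a :: l)) (toPlane a) z := by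
  induction l with
  | nil =>
    intro a z hz
    simp only [chain, mem_singleton_iff] at hz
    subst hz
    exact JoinedIn.refl (by simp [chain])
  | cons b l ih =>
    intro a z hz
    have hseg : IsPreconnected (segment ℝ (toPlane a) (toPlane b)) :=
      (convex_segment _ _).isPreconnected
    have hpc : IsPathConnected (segment ℝ (toPlane a) (toPlane b)) :=
      (convex_segment _ _).isPathConnected ⟨_, left_mem_segment ℝ _ _⟩
    rcases hz with hz | hz
    · exact (hpc.joinedIn _ (left_mem_segment ℝ _ _) _ hz).mono subset_union_left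
    · exact ((hpc.joinedIn _ (left_mem_segment ℝ _ _) _ (right_mem_segment ℝ _ _)).mono
        subset_union_left).trans ((ih b z hz).mono subset_union_right)

lemma end_mem_chain (q : ℤ × ℤ) (l : List (ℤ × ℤ)) : ∀ a : ℤ × ℤ,
    toPlane q ∈ chain (a :: (l ++ [q])) := by
  induction l with
  | nil => intro a; exact Or.inl (right_mem_segment ℝ _ _)
  | cons b l ih => intro a; exact Or.inr (ih b)

lemma mem_list_chain (l : List (ℤ × ℤ)) : ∀ p ∈ l, toPlane p ∈ chain l := by
  induction l with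
  | nil => intro p hp; simp at hp
  | cons a l ih =>
    intro p hp
    rcases List.mem_cons.1 hp with rfl | hp
    · exact start_mem_chain _ _
    · cases l with
      | nil => simp at hp
      | cons b l => exact Or.inr (ih p hp)

/-- a lower bound on the grid points of a chain is a lower bound on the chain -/
lemma chain_lower (f : (ℝ × ℝ) →ₗ[ℝ] ℝ) (c : ℝ) (l : List (ℤ × ℤ))
    (h : ∀ p ∈ l, c ≤ f (toPlane p)) : ∀ z ∈ chain l, c ≤ f z := by
  induction l with
  | nil => intro z hz; exact absurd hz (by simp [chain])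
  | cons a l ih =>
    cases l with
    | nil =>
      intro z hz
      simp only [chain, mem_singleton_iff] at hz
      subst hz
      exact h a (by simp)
    | cons b l =>
      intro z hz
      rcases hz with hz | hz
      · obtain ⟨s, t, hs, ht, hst, rfl⟩ := hz
        have h1 := h a (by simp)
        have h2 := h b (by simp)
        rw [map_add, map_smul, map_smul, smul_eq_mul, smul_eq_mul]
        have : c = s * c + t * c := by rw [← add_mul, hst, one_mul]
        rw [this]
        exact add_le_add (mul_le_mul_of_nonneg_left h1 hs) (mul_le_mul_of_nonneg_left h2 ht)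
      · exact ih (fun p hp => h p (List.mem_cons_of_mem _ hp)) z hz

section

variable {V : Type} {E : V → V → Prop} (D : Drawing E)

/-- the grid points used by an edge -/
def Drawing.pts (u v : V) : List (ℤ × ℤ) := D.pos u :: (D.bends u v ++ [D.pos v])

/-- the part of the drawing spanned by the vertices of `Y` -/
def Drawing.part (Y : Set V) : Set (ℝ × ℝ) :=
  {z | (∃ v ∈ Y, z = toPlane (D.pos v)) ∨ ∃ u ∈ Y, ∃ v ∈ Y, E u v ∧ z ∈ chain (D.pts u v)}

lemma Drawing.part_mono {Y Z : Set V} (h : Y ⊆ Z) : D.part Y ⊆ D.part Z := by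
  rintro z (⟨v, hv, hz⟩ | ⟨u, hu, v, hv, he, hz⟩)
  · exact Or.inl ⟨v, h hv, hz⟩
  · exact Or.inr ⟨u, h hu, v, h hv, he, hz⟩

lemma toPlane_injective : Function.Injective toPlane := by
  intro p q h
  have h1 := congrArg Prod.fst h
  have h2 := congrArg Prod.snd h
  simp only [toPlane] at h1 h2
  exact Prod.ext (by exact_mod_cast h1) (by exact_mod_cast h2)

/-- parts spanned by disjoint sets of vertices are disjoint -/
lemma Drawing.part_disjoint {Y Z : Set V} (h : Disjoint Y Z) : Disjoint (D.part Y) (D.part Z) := by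
  rw [Set.disjoint_left] at h ⊢
  have h' : ∀ v, v ∈ Z → v ∉ Y := fun v hv hy => h hy hv
  rintro z (⟨v, hv, hz⟩ | ⟨u, hu, v, hv, he, hz⟩) (⟨x, hx, hz'⟩ | ⟨x, hx, y, hy, he', hz'⟩)
  · have : v = x := D.pos_injective (toPlane_injective (hz.symm.trans hz'))
    subst this
    exact h hv hx
  · rw [hz] at hz'
    rcases D.vertex_not_on_edge x y v he' hz' with rfl | rfl
    · exact h hv hx
    · exact h hv hy
  · rw [hz'] at hz
    rcases D.vertex_not_on_edge u v x he hz with rfl | rfl
    · exact h hu hx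
    · exact h hv hx
  · have hne : (u, v) ≠ (x, y) := by
      intro heq
      rw [Prod.mk.injEq] at heq
      obtain ⟨rfl, rfl⟩ := heq
      exact h hu hx
    obtain ⟨w, hw1, hw2, -⟩ := D.planar u v x y he he' hne z hz hz'
    rcases hw1 with rfl | rfl <;> rcases hw2 with rfl | rfl
    · exact h hu hx
    · exact h hu hy
    · exact h hv hx
    · exact h hv hy

/-- adjacent vertices of `Y` are joined in the part spanned by `Y` -/
lemma Drawing.joined_adj {Y : Set V} {u v : V} (hu : u ∈ Y) (hv : v ∈ Y) (h : E u v ∨ E v u) :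
    JoinedIn (D.part Y) (toPlane (D.pos u)) (toPlane (D.pos v)) := by
  have key : ∀ a b : V, a ∈ Y → b ∈ Y → E a b →
      JoinedIn (D.part Y) (toPlane (D.pos a)) (toPlane (D.pos b)) := by
    intro a b ha hb hab
    refine (joined_chain (D.bends a b ++ [D.pos b]) (D.pos a) _ (end_mem_chain _ _ _)).mono ?_
    intro z hz
    exact Or.inr ⟨a, ha, b, hb, hab, hz⟩
  rcases h with h | h
  · exact key u v hu hv h
  · exact (key v u hv hu h).symm

/-- every point of the part spanned by `Y` is joined in it to a vertex of `Y` -/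
lemma Drawing.joined_vertex {Y : Set V} {z : ℝ × ℝ} (hz : z ∈ D.part Y) :
    ∃ v ∈ Y, JoinedIn (D.part Y) (toPlane (D.pos v)) z := by
  rcases hz with ⟨v, hv, rfl⟩ | ⟨u, hu, v, hv, he, hz⟩
  · exact ⟨v, hv, JoinedIn.refl (Or.inl ⟨v, hv, rfl⟩)⟩
  · refine ⟨u, hu, (joined_chain (D.bends u v ++ [D.pos v]) (D.pos u) z hz).mono ?_⟩
    intro z hz
    exact Or.inr ⟨u, hu, v, hv, he, hz⟩

/-- the smallest value on a part of a linear function which is integral on the grid is an
integer -/
lemma Drawing.exists_min [Finite V] (f : (ℝ × ℝ) →ₗ[ℝ] ℝ) (F : ℤ × ℤ → ℤ)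
    (hF : ∀ p, f (toPlane p) = F p) {Y : Set V} (hY : Y.Nonempty) :
    ∃ m : ℤ, (∀ z ∈ D.part Y, (m : ℝ) ≤ f z) ∧ ∃ z ∈ D.part Y, f z = m := by
  classical
  let G : Set (ℤ × ℤ) := {p | (∃ v ∈ Y, p = D.pos v) ∨ ∃ u ∈ Y, ∃ v ∈ Y, E u v ∧ p ∈ D.pts u v}
  have hG : G.Finite := by
    have h1 : (⋃ u : V, ⋃ v : V, ({p | p ∈ D.pts u v} : Set (ℤ × ℤ))).Finite := by
      refine Set.finite_iUnion fun u => Set.finite_iUnion fun v => ?_
      exact List.finite_toSet _
    refine h1.subset ?_
    rintro p (⟨v, hv, rfl⟩ | ⟨u, hu, v, hv, he, hp⟩)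
    · exact mem_iUnion.2 ⟨v, mem_iUnion.2 ⟨v, by simp [Drawing.pts]⟩⟩
    · exact mem_iUnion.2 ⟨u, mem_iUnion.2 ⟨v, hp⟩⟩
  have hne : G.Nonempty := by
    obtain ⟨v, hv⟩ := hY
    exact ⟨_, Or.inl ⟨v, hv, rfl⟩⟩
  obtain ⟨g, hg, hmin⟩ := hG.exists_minimalFor (f := F) G hne
  have hmin' : ∀ p ∈ G, F g ≤ F p := by
    intro p hp
    rcases le_total (F g) (F p) with h | h
    · exact h
    · exact hmin hp h
  refine ⟨F g, ?_, toPlane g, ?_, hF g⟩
  · rintro z (⟨v, hv, rfl⟩ | ⟨u, hu, v, hv, he, hz⟩)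
    · rw [hF]; exact_mod_cast hmin' _ (Or.inl ⟨v, hv, rfl⟩)
    · refine chain_lower f _ _ ?_ z hz
      intro p hp
      rw [hF]; exact_mod_cast hmin' _ (Or.inr ⟨u, hu, v, hv, he, hp⟩)
  · rcases hg with ⟨v, hv, rfl⟩ | ⟨u, hu, v, hv, he, hp⟩
    · exact Or.inl ⟨v, hv, rfl⟩
    · exact Or.inr ⟨u, hu, v, hv, he, mem_list_chain _ _ hp⟩

end

end Pool.Agent.T6.H90.Upward
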